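import Pool.Agent.Helper41.PS.Goals

/-!
# Project PS, packet SM
-/

set_option autoImplicit false

open Finset

open scoped Classical

namespace Pool.Agent.Helper24.PS.SM

open Pool.Agent.Helper41.PS

theorem prod_le (A : Finset ℕ) (s t M : ℕ → ℝ) (U : ℝ) (hU : 0 ≤ U)
    (h : ∀ a, 0 ≤ s a ∧ s a ≤ U ∧ 0 ≤ t a ∧ s a + t a ≤ M a) :
    ∏ a ∈ A, (s a + t a) ≤ U ^ A.card + ∑ a ∈ A, t a * ∏ b ∈ A.erase a, M b := by
  have hM : ∀ a, 0 ≤ M a := fun a => by
    obtain ⟨h1, _, h3, h4⟩ := h a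
    linarith
  induction A using Finset.induction_on with
  | empty => simp
  | insert a0 A ha0 ih =>
    obtain ⟨h1, h2, h3, h4⟩ := h a0
    rw [Finset.prod_insert ha0, Finset.card_insert_of_notMem ha0, Finset.sum_insert ha0,
      Finset.erase_insert ha0]
    have e1 : ∏ a ∈ A, (s a + t a) ≤ ∏ b ∈ A, M b := by
      apply Finset.prod_le_prod
      · intro a _
        obtain ⟨g1, _, g3, _⟩ := h a
        linarith
      · intro a _
        exact (h a).2.2.2
    have e0 : 0 ≤ ∏ b ∈ A, M b := Finset.prod_nonneg (fun b _ => hM b)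
    have e2 : t a0 * ∏ a ∈ A, (s a + t a) ≤ t a0 * ∏ b ∈ A, M b :=
      mul_le_mul_of_nonneg_left e1 h3
    have e3 : s a0 * ∏ a ∈ A, (s a + t a) ≤
        s a0 * (U ^ A.card + ∑ a ∈ A, t a * ∏ b ∈ A.erase a, M b) :=
      mul_le_mul_of_nonneg_left ih h1
    have e4 : s a0 * U ^ A.card ≤ U ^ (A.card + 1) := by
      rw [pow_succ']
      exact mul_le_mul_of_nonneg_right h2 (pow_nonneg hU _)
    have e5 : s a0 * ∑ a ∈ A, t a * ∏ b ∈ A.erase a, M b ≤
        ∑ a ∈ A, t a * ∏ b ∈ (insert a0 A).erase a, M b := by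
      rw [Finset.mul_sum]
      apply Finset.sum_le_sum
      intro a ha
      have hne : a0 ≠ a := fun h' => ha0 (h' ▸ ha)
      have hni : a0 ∉ A.erase a := fun h' => ha0 (Finset.mem_of_mem_erase h')
      rw [Finset.erase_insert_of_ne hne, Finset.prod_insert hni]
      have f1 : 0 ≤ ∏ b ∈ A.erase a, M b := Finset.prod_nonneg (fun b _ => hM b)
      have f2 : 0 ≤ t a * ∏ b ∈ A.erase a, M b := mul_nonneg (h a).2.2.1 f1
      have f3 : s a0 ≤ M a0 := by linarith
      calc s a0 * (t a * ∏ b ∈ A.erase a, M b) ≤ M a0 * (t a * ∏ b ∈ A.erase a, M b) :=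
            mul_le_mul_of_nonneg_right f3 f2
        _ = t a * (M a0 * ∏ b ∈ A.erase a, M b) := by ring
    calc (s a0 + t a0) * ∏ a ∈ A, (s a + t a)
        = s a0 * ∏ a ∈ A, (s a + t a) + t a0 * ∏ a ∈ A, (s a + t a) := by ring
      _ ≤ s a0 * (U ^ A.card + ∑ a ∈ A, t a * ∏ b ∈ A.erase a, M b) +
            t a0 * ∏ b ∈ A, M b := add_le_add e3 e2
      _ = s a0 * U ^ A.card + (t a0 * ∏ b ∈ A, M b +
            s a0 * ∑ a ∈ A, t a * ∏ b ∈ A.erase a, M b) := by ring
      _ ≤ U ^ (A.card + 1) + (t a0 * ∏ b ∈ A, M b +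
            ∑ a ∈ A, t a * ∏ b ∈ (insert a0 A).erase a, M b) := by
          gcongr

theorem ff_nonneg (q a : ℕ) (D : Finset ℕ) (n : ℕ) : 0 ≤ ff q a D n := by
  unfold ff
  split_ifs <;> norm_num

theorem ff_le_one (q a : ℕ) (D : Finset ℕ) (n : ℕ) : ff q a D n ≤ 1 := by
  unfold ff
  split_ifs <;> norm_num

theorem ff_mul_le (q a : ℕ) (D : Finset ℕ) (n h : ℕ) :
    ff q a D n * ff q a D (n + h) ≤ ff q a D n := by
  have := mul_le_mul_of_nonneg_left (ff_le_one q a D (n + h)) (ff_nonneg q a D n)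
  simpa using this

theorem nn_bound (q a x : ℕ) (D : Finset ℕ) (h : ℕ) :
    ∑ n ∈ Icc 1 x, ff q a D n * ff q a D (n + h) ≤ NN x (EE D h) := by
  unfold NN
  rw [Finset.card_filter]
  push_cast
  apply Finset.sum_le_sum
  intro n _
  by_cases hp : ∀ e ∈ EE D h, (n + e).Prime
  · rw [if_pos hp]
    have h1 := ff_mul_le q a D n h
    have h2 := ff_le_one q a D n
    linarith
  · rw [if_neg hp]
    unfold ff
    by_cases h1 : PD q a D n
    · by_cases h2 : PD q a D (n + h)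
      · exfalso
        apply hp
        intro e he
        unfold EE at he
        rw [Finset.mem_union] at he
        rcases he with he | he
        · exact (h1 e he).1
        · rw [Finset.mem_image] at he
          obtain ⟨d, hd, rfl⟩ := he
          have := (h2 d hd).1
          have e1 : n + (d + h) = n + h + d := by ring
          rw [e1]
          exact this
      · rw [if_neg h2]
        simp
    · rw [if_neg h1]
      simp

theorem nd_card (m L : ℕ) (D : Finset ℕ) (hD : D ∈ DD m L) :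
    (((Icc 1 L).filter (fun h => ¬ ND D h)).card : ℝ) ≤ ((m : ℝ) + 1) ^ 2 := by
  have hc : D.card = m := (Finset.mem_powersetCard.1 hD).2
  have h1 : (Icc 1 L).filter (fun h => ¬ ND D h) ⊆
      (insert 0 D ×ˢ insert 0 D).image (fun p => p.1 - p.2) := by
    intro h hh
    rw [Finset.mem_filter] at hh
    obtain ⟨_, h2⟩ := hh
    unfold ND at h2
    rw [Finset.not_disjoint_iff] at h2
    obtain ⟨u, hu1, hu2⟩ := h2
    rw [Finset.mem_image] at hu2
    obtain ⟨d, hd, hdu⟩ := hu2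
    rw [Finset.mem_image]
    refine ⟨(u, d), Finset.mem_product.2 ⟨hu1, hd⟩, ?_⟩
    simp only
    omega
  have h2 : (insert 0 D).card ≤ m + 1 := by
    rw [← hc]
    exact Finset.card_insert_le _ _
  have h3 : ((Icc 1 L).filter (fun h => ¬ ND D h)).card ≤ (m + 1) ^ 2 := by
    calc ((Icc 1 L).filter (fun h => ¬ ND D h)).card
        ≤ ((insert 0 D ×ˢ insert 0 D).image (fun p => p.1 - p.2)).card :=
          Finset.card_le_card h1
      _ ≤ (insert 0 D ×ˢ insert 0 D).card := Finset.card_image_le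
      _ = (insert 0 D).card * (insert 0 D).card := Finset.card_product _ _
      _ ≤ (m + 1) * (m + 1) := Nat.mul_le_mul h2 h2
      _ = (m + 1) ^ 2 := by ring
  exact_mod_cast h3

/-- The part of the sum with disjoint translates. -/
noncomputable def S1 (m q x L a h : ℕ) : ℝ :=
  ∑ D ∈ (DD m L).filter (fun D => ND D h), ∑ n ∈ Icc 1 x, ff q a D n * ff q a D (n + h)

/-- The other part. -/
noncomputable def S2 (m q x L a h : ℕ) : ℝ :=
  ∑ D ∈ (DD m L).filter (fun D => ¬ ND D h), ∑ n ∈ Icc 1 x, ff q a D n * ff q a D (n + h)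

theorem ss_eq (m q x L a h : ℕ) : SS m q x L a h = S1 m q x L a h + S2 m q x L a h := by
  unfold SS S1 S2
  exact (Finset.sum_filter_add_sum_filter_not _ _ _).symm

theorem ss_le (m q x L a h : ℕ) : SS m q x L a h ≤ MM m q x L a := by
  unfold SS MM
  exact Finset.sum_le_sum (fun D _ => Finset.sum_le_sum (fun n _ => ff_mul_le q a D n h))

theorem inner_nonneg' (q a x : ℕ) (D : Finset ℕ) (h : ℕ) :
    0 ≤ ∑ n ∈ Icc 1 x, ff q a D n * ff q a D (n + h) :=
  Finset.sum_nonneg (fun n _ => mul_nonneg (ff_nonneg _ _ _ _) (ff_nonneg _ _ _ _))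

theorem s1_nonneg (m q x L a h : ℕ) : 0 ≤ S1 m q x L a h :=
  Finset.sum_nonneg (fun D _ => inner_nonneg' q a x D h)

theorem s2_nonneg (m q x L a h : ℕ) : 0 ≤ S2 m q x L a h :=
  Finset.sum_nonneg (fun D _ => inner_nonneg' q a x D h)

theorem s1_le (m q x L a h : ℕ) : S1 m q x L a h ≤ UU m x L h := by
  unfold S1 UU
  exact Finset.sum_le_sum (fun D _ => nn_bound q a x D h)

theorem uu_nonneg (m x L h : ℕ) : 0 ≤ UU m x L h := by
  unfold UU NN
  exact Finset.sum_nonneg (fun D _ => Nat.cast_nonneg _)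

theorem s2_sum (m q x L a : ℕ) :
    ∑ h ∈ Icc 1 L, S2 m q x L a h ≤ ((m : ℝ) + 1) ^ 2 * MM m q x L a := by
  have h1 : ∀ h ∈ Icc 1 L, S2 m q x L a h ≤
      ∑ D ∈ DD m L, (if ¬ ND D h then ∑ n ∈ Icc 1 x, ff q a D n else 0) := by
    intro h _
    unfold S2
    rw [Finset.sum_filter]
    apply Finset.sum_le_sum
    intro D _
    by_cases hn : ND D h
    · rw [if_neg (not_not.2 hn), if_neg (not_not.2 hn)]
    · rw [if_pos hn, if_pos hn]
      exact Finset.sum_le_sum (fun n _ => ff_mul_le q a D n h)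
  calc ∑ h ∈ Icc 1 L, S2 m q x L a h
      ≤ ∑ h ∈ Icc 1 L, ∑ D ∈ DD m L, (if ¬ ND D h then ∑ n ∈ Icc 1 x, ff q a D n else 0) :=
        Finset.sum_le_sum h1
    _ = ∑ D ∈ DD m L, ∑ h ∈ Icc 1 L, (if ¬ ND D h then ∑ n ∈ Icc 1 x, ff q a D n else 0) :=
        Finset.sum_comm
    _ = ∑ D ∈ DD m L, (((Icc 1 L).filter (fun h => ¬ ND D h)).card : ℝ) *
          ∑ n ∈ Icc 1 x, ff q a D n := by
        apply Finset.sum_congr rfl
        intro D _
        rw [← Finset.sum_filter, Finset.sum_const, nsmul_eq_mul]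
    _ ≤ ∑ D ∈ DD m L, ((m : ℝ) + 1) ^ 2 * ∑ n ∈ Icc 1 x, ff q a D n := by
        apply Finset.sum_le_sum
        intro D hD
        exact mul_le_mul_of_nonneg_right (nd_card m L D hD)
          (Finset.sum_nonneg (fun n _ => ff_nonneg _ _ _ _))
    _ = ((m : ℝ) + 1) ^ 2 * MM m q x L a := by
        unfold MM
        rw [Finset.mul_sum]

theorem t : StmtSM := by
  intro m q x L A
  have h1 : ∀ h ∈ Icc 1 L, ∏ a ∈ A, SS m q x L a h ≤ UU m x L h ^ A.card +
      ∑ a ∈ A, S2 m q x L a h * ∏ b ∈ A.erase a, MM m q x L b := by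
    intro h _
    have e := prod_le A (fun a => S1 m q x L a h) (fun a => S2 m q x L a h)
      (fun a => MM m q x L a) (UU m x L h) (uu_nonneg m x L h) (fun a =>
        ⟨s1_nonneg m q x L a h, s1_le m q x L a h, s2_nonneg m q x L a h, by
          have := ss_le m q x L a h
          rw [ss_eq] at this
          exact this⟩)
    refine le_trans (le_of_eq ?_) e
    exact Finset.prod_congr rfl (fun a _ => ss_eq m q x L a h)
  have h2 : ∑ h ∈ Icc 1 L, ∑ a ∈ A, S2 m q x L a h * ∏ b ∈ A.erase a, MM m q x L b ≤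
      (A.card : ℝ) * ((m : ℝ) + 1) ^ 2 * ∏ a ∈ A, MM m q x L a := by
    rw [Finset.sum_comm]
    calc ∑ a ∈ A, ∑ h ∈ Icc 1 L, S2 m q x L a h * ∏ b ∈ A.erase a, MM m q x L b
        = ∑ a ∈ A, (∑ h ∈ Icc 1 L, S2 m q x L a h) * ∏ b ∈ A.erase a, MM m q x L b := by
          apply Finset.sum_congr rfl
          intro a _
          rw [Finset.sum_mul]
      _ ≤ ∑ a ∈ A, (((m : ℝ) + 1) ^ 2 * MM m q x L a) * ∏ b ∈ A.erase a, MM m q x L b := by
          apply Finset.sum_le_sum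
          intro a _
          apply mul_le_mul_of_nonneg_right (s2_sum m q x L a)
          apply Finset.prod_nonneg
          intro b _
          unfold MM
          exact Finset.sum_nonneg (fun D _ => Finset.sum_nonneg (fun n _ => ff_nonneg _ _ _ _))
      _ = ∑ a ∈ A, ((m : ℝ) + 1) ^ 2 * ∏ a ∈ A, MM m q x L a := by
          apply Finset.sum_congr rfl
          intro a ha
          rw [mul_assoc, Finset.mul_prod_erase A _ ha]
      _ = (A.card : ℝ) * ((m : ℝ) + 1) ^ 2 * ∏ a ∈ A, MM m q x L a := by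
          rw [Finset.sum_const, nsmul_eq_mul]
          ring
  calc ∑ h ∈ Icc 1 L, ∏ a ∈ A, SS m q x L a h
      ≤ ∑ h ∈ Icc 1 L, (UU m x L h ^ A.card +
        ∑ a ∈ A, S2 m q x L a h * ∏ b ∈ A.erase a, MM m q x L b) := Finset.sum_le_sum h1
    _ = ∑ h ∈ Icc 1 L, UU m x L h ^ A.card +
        ∑ h ∈ Icc 1 L, ∑ a ∈ A, S2 m q x L a h * ∏ b ∈ A.erase a, MM m q x L b :=
        Finset.sum_add_distrib
    _ ≤ ∑ h ∈ Icc 1 L, UU m x L h ^ A.card +
        (A.card : ℝ) * ((m : ℝ) + 1) ^ 2 * ∏ a ∈ A, MM m q x L a := by gcongr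
    _ = (A.card : ℝ) * ((m : ℝ) + 1) ^ 2 * ∏ a ∈ A, MM m q x L a +
      ∑ h ∈ Icc 1 L, UU m x L h ^ A.card := by ring

end Pool.Agent.Helper24.PS.SM
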